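import Mathlib

set_option autoImplicit false

namespace Pool.Agent.Results.MP_8ae111_al.JordanFixed

/-- `A` is a Jordan ring: `xy = yx` and `(x²y)x = x²(yx)`. -/
def IsJordanRing (A : Type) [NonUnitalNonAssocRing A] : Prop :=
  (∀ x y : A, x * y = y * x) ∧ ∀ x y : A, ((x * x) * y) * x = (x * x) * (y * x)

/-- the additive subgroup generated by all products of two elements of `S` -/
def derived {A : Type} [NonUnitalNonAssocRing A] (S : AddSubgroup A) : AddSubgroup A :=
  AddSubgroup.closure {z | ∃ x ∈ S, ∃ y ∈ S, z = x * y}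

/-- solvability: some term of the derived series vanishes -/
def IsSolv {A : Type} [NonUnitalNonAssocRing A] (S : AddSubgroup A) : Prop :=
  ∃ n : ℕ, derived^[n] S = ⊥

/-- the fixed subring of a group of ring automorphisms -/
def fixedPts {A : Type} [NonUnitalNonAssocRing A] (G : Subgroup (RingAut A)) : AddSubgroup A where
  carrier := {a | ∀ g ∈ G, g a = a}
  add_mem' := by
    intro a b ha hb g hg
    rw [map_add, ha g hg, hb g hg]
  zero_mem' := by
    intro g _
    rw [map_zero]
  neg_mem' := by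
    intro a ha g hg
    rw [map_neg, ha g hg]

/-- the cross product algebra over the field with two elements -/
def Cr : Type := ZMod 2 × ZMod 2 × ZMod 2

instance : AddCommGroup Cr := inferInstanceAs (AddCommGroup (ZMod 2 × ZMod 2 × ZMod 2))
instance : DecidableEq Cr := inferInstanceAs (DecidableEq (ZMod 2 × ZMod 2 × ZMod 2))
instance : Fintype Cr := inferInstanceAs (Fintype (ZMod 2 × ZMod 2 × ZMod 2))

def cmul (a b : Cr) : Cr :=
  (a.2.1 * b.2.2 + a.2.2 * b.2.1, a.2.2 * b.1 + a.1 * b.2.2, a.1 * b.2.1 + a.2.1 * b.1)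

lemma cmul_add : ∀ a b c : Cr, cmul a (b + c) = cmul a b + cmul a c := by decide +kernel
lemma add_cmul : ∀ a b c : Cr, cmul (a + b) c = cmul a c + cmul b c := by decide +kernel
lemma zero_cmul : ∀ a : Cr, cmul 0 a = 0 := by decide +kernel
lemma cmul_zero : ∀ a : Cr, cmul a 0 = 0 := by decide +kernel

instance : NonUnitalNonAssocRing Cr :=
  { (inferInstance : AddCommGroup Cr) with
    mul := cmul
    left_distrib := cmul_add
    right_distrib := add_cmul
    zero_mul := zero_cmul
    mul_zero := cmul_zero }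

def rot (a : Cr) : Cr := (a.2.2, a.1, a.2.1)
def rot' (a : Cr) : Cr := (a.2.1, a.2.2, a.1)

lemma rot_mul : ∀ a b : Cr, rot (a * b) = rot a * rot b := by decide +kernel
lemma rot_add : ∀ a b : Cr, rot (a + b) = rot a + rot b := by decide +kernel

def σ : RingAut Cr :=
  { toFun := rot
    invFun := rot'
    left_inv := fun _ => rfl
    right_inv := fun _ => rfl
    map_mul' := rot_mul
    map_add' := rot_add }

lemma σ_apply (a : Cr) : σ a = rot a := rfl

lemma σ_cube : σ ^ 3 = 1 := by
  apply RingEquiv.ext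
  intro a
  rfl

lemma σ_ne : σ ≠ 1 := by
  intro h
  have h1 : σ ((1, 0, 0) : ZMod 2 × ZMod 2 × ZMod 2) = (1 : RingAut Cr) ((1, 0, 0) : ZMod 2 × ZMod 2 × ZMod 2) := by
    rw [h]
  have h2 : ((0, 1, 0) : ZMod 2 × ZMod 2 × ZMod 2) = (1, 0, 0) := h1
  exact absurd h2 (by decide)

lemma jordan : IsJordanRing Cr := by
  constructor
  · decide +kernel
  · decide +kernel

lemma fix_mul : ∀ a b : Cr, rot a = a → rot b = b → a * b = 0 := by decide +kernel

lemma notorsion : ∀ a : Cr, a + a + a = 0 → a = 0 := by decide +kernel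

lemma spanning : ∀ a : Cr, ∃ x y z w : Cr, a = x * y + z * w := by decide +kernel

theorem result : ¬ ∀ (A : Type) [NonUnitalNonAssocRing A] (G : Subgroup (RingAut A)) [Finite G],
    IsJordanRing A → (∀ a : A, Nat.card G • a = 0 → a = 0) → IsSolv (fixedPts G) →
      IsSolv (⊤ : AddSubgroup A) := by
  intro h
  have hord : orderOf σ = 3 := orderOf_eq_prime σ_cube σ_ne
  haveI : Finite (Subgroup.zpowers σ) :=
    Nat.finite_of_card_ne_zero (by rw [Nat.card_zpowers, hord]; norm_num)
  have h1 := h Cr (Subgroup.zpowers σ) jordan (fun a ha => ?_) ?_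
  · obtain ⟨n, hn⟩ := h1
    have h2 : derived (⊤ : AddSubgroup Cr) = ⊤ := by
      rw [eq_top_iff]
      intro a _
      obtain ⟨x, y, z, w, rfl⟩ := spanning a
      exact add_mem (AddSubgroup.subset_closure ⟨x, trivial, y, trivial, rfl⟩)
        (AddSubgroup.subset_closure ⟨z, trivial, w, trivial, rfl⟩)
    have h3 : derived^[n] (⊤ : AddSubgroup Cr) = ⊤ := Function.iterate_fixed h2 n
    rw [h3] at hn
    have h4 : ((1, 0, 0) : ZMod 2 × ZMod 2 × ZMod 2) = (0, 0, 0) := by
      have h5 : (((1, 0, 0) : ZMod 2 × ZMod 2 × ZMod 2) : Cr) ∈ (⊤ : AddSubgroup Cr) := trivial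
      rw [hn] at h5
      exact AddSubgroup.mem_bot.mp h5
    exact absurd h4 (by decide)
  · rw [Nat.card_zpowers, hord] at ha
    apply notorsion
    rw [← ha, succ_nsmul, succ_nsmul, one_nsmul]
  · refine ⟨1, ?_⟩
    show derived (fixedPts (Subgroup.zpowers σ)) = ⊥
    rw [eq_bot_iff, derived, AddSubgroup.closure_le]
    rintro _ ⟨x, hx, y, hy, rfl⟩
    exact fix_mul x y (hx σ (Subgroup.mem_zpowers σ)) (hy σ (Subgroup.mem_zpowers σ))

end Pool.Agent.Results.MP_8ae111_al.JordanFixed
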